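import Pool.Agent.H572R4.Stmts
import Pool.Agent.Helper446.RE

/-! helper826: extra lemma IMM of project H572-PI (a cohesive set is immune). -/

set_option autoImplicit false

namespace Pool.Agent.H826R3.PI

open Pool.Agent.Helper446 Pool.Agent.H572R4

/-- a cohesive set has no infinite c.e. subset -/
theorem imm (C : Set ℕ) (hC : CohS C) (W : Set ℕ) (hW : REPred (fun x => x ∈ W))
    (hsub : W ⊆ C) : W.Finite := by
  by_contra hfin
  have hinf : W.Infinite := hfin
  have hr : REPred fun x : ℕ × ℕ => x.2 ∈ W ∧ x.1 < x.2 :=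
    RE.and (RE.comp hW Computable.snd) (RE.lt Computable.fst Computable.snd)
  obtain ⟨f, hf, h1, h2⟩ := RE.uniformize (r := fun a b => b ∈ W ∧ a < b) hr
  have hdom : ∀ a, (f a).Dom := fun a => (h1 a).2 (by
    obtain ⟨b, hb, hab⟩ := hinf.exists_gt a
    exact ⟨b, hb, hab⟩)
  set g : ℕ → ℕ := fun a => (f a).get (hdom a) with hgdef
  have hg : Computable g := hf.of_eq_tot fun a => Part.get_mem (hdom a)
  have hgW : ∀ a, g a ∈ W ∧ a < g a := fun a => h2 a _ (Part.get_mem (hdom a))
  set h : ℕ → ℕ := fun n => Nat.rec (g 0) (fun _ y => g y) n with hhdef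
  have hh : Computable h := by
    have := Computable.nat_rec (f := fun n : ℕ => n) (g := fun _ : ℕ => g 0)
      (h := fun (_ : ℕ) (y : ℕ × ℕ) => g y.2) Computable.id (Computable.const (g 0))
      (hg.comp (Computable.snd.comp Computable.snd))
    exact this
  have hsucc : ∀ n, h (n + 1) = g (h n) := fun n => rfl
  have hhW : ∀ n, h n ∈ W := by
    intro n
    cases n with
    | zero => exact (hgW 0).1
    | succ n => exact (hgW (h n)).1
  have hmono : StrictMono h := strictMono_nat_of_lt_succ fun n => by
    rw [hsucc]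
    exact (hgW (h n)).2
  have hX : REPred (fun x => x ∈ Set.range fun n => h (2 * n)) := by
    have h3 : REPred fun x : ℕ × ℕ => h (2 * x.2) = x.1 :=
      RE.eq (hh.comp ((Primrec.nat_mul.comp (Primrec.const 2) Primrec.snd).to_comp)) Computable.fst
    exact RE.exN h3
  rcases hC.2.2 _ hX with h4 | h4
  · have h5 : (Set.range fun n => h (2 * n)).Infinite :=
      Set.infinite_range_of_injective fun a b hab => by
        have := hmono.injective hab
        omega
    apply h5
    refine h4.subset ?_
    rintro x ⟨n, rfl⟩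
    exact ⟨hsub (hhW _), n, rfl⟩
  · have h5 : (Set.range fun n => h (2 * n + 1)).Infinite :=
      Set.infinite_range_of_injective fun a b hab => by
        have := hmono.injective (a₁ := 2 * a + 1) (a₂ := 2 * b + 1) hab
        omega
    apply h5
    refine h4.subset ?_
    rintro x ⟨n, rfl⟩
    refine ⟨hsub (hhW (2 * n + 1)), ?_⟩
    rintro ⟨m, hm⟩
    have := hmono.injective (a₁ := 2 * m) (a₂ := 2 * n + 1) hm
    omega

/-- the same, in the order of arguments of the task -/
theorem taskIMM : ∀ C : Set ℕ, CohS C → ∀ W : Set ℕ, REPred (fun x => x ∈ W) → W ⊆ C →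
    W.Finite :=
  fun C hC W hW hsub => imm C hC W hW hsub

end Pool.Agent.H826R3.PI
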